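import Pool.Agent.H211.HY.Stm1

/-!
# HY211 LEO: topological exactness (helper746)
-/

set_option autoImplicit false

open Topology Filter Metric Set

namespace Pool.Agent.H746.HY211

open Pool.Agent.H790R3.RB Pool.Agent.H211.HY

theorem cr_swap (p q : ℂ × ℂ) : cr p q = - cr q p := by
  unfold cr; ring

theorem cr_symm {p q : ℂ × ℂ} (h : cr p q = 0) : cr q p = 0 := by
  rw [cr_swap, h, neg_zero]

/-- transitivity of parallelism -/
theorem cr_trans {p q r : ℂ × ℂ} (hq : q ≠ 0) (h1 : cr p q = 0) (h2 : cr q r = 0) :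
    cr p r = 0 := by
  unfold cr at *
  by_cases h : q.1 = 0
  · have hq2 : q.2 ≠ 0 := fun h' => hq (Prod.ext h h')
    have : q.2 * (p.1 * r.2 - p.2 * r.1) = 0 := by
      linear_combination r.2 * h1 + p.2 * h2
    exact (mul_eq_zero.1 this).resolve_left hq2
  · have : q.1 * (p.1 * r.2 - p.2 * r.1) = 0 := by
      linear_combination r.1 * h1 + p.1 * h2
    exact (mul_eq_zero.1 this).resolve_left h

theorem ex_indep {p : ℂ × ℂ} (hp : p ≠ 0) : ∃ p' : ℂ × ℂ, cr p p' ≠ 0 := by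
  by_cases h : p.1 = 0
  · have h2 : p.2 ≠ 0 := fun h' => hp (Prod.ext h h')
    refine ⟨(1, 0), ?_⟩
    unfold cr
    simpa using h2
  · refine ⟨(0, 1), ?_⟩
    unfold cr
    simpa using h

theorem cr_line (p q q' : ℂ × ℂ) (t : ℂ) : cr p (q + t • q') = cr p q + t * cr p q' := by
  unfold cr
  simp only [Prod.fst_add, Prod.snd_add, Prod.smul_fst, Prod.smul_snd, smul_eq_mul]
  ring

theorem line_ne {q q' : ℂ × ℂ} (h : cr q q' ≠ 0) (t : ℂ) : q + t • q' ≠ 0 := by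
  intro h0
  apply h
  have h1 : cr (q + t • q') q' = cr q q' := by
    unfold cr
    simp only [Prod.fst_add, Prod.snd_add, Prod.smul_fst, Prod.smul_snd, smul_eq_mul]
    ring
  rw [← h1, h0]
  unfold cr
  simp

theorem N2_pos {p : ℂ × ℂ} (hp : p ≠ 0) : 0 < N2 p := by
  unfold N2
  by_cases h : p.1 = 0
  · have h2 : p.2 ≠ 0 := fun h' => hp (Prod.ext h h')
    have := norm_pos_iff.2 h2
    positivity
  · have := norm_pos_iff.2 h
    positivity

theorem N2_cont : Continuous N2 := by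
  unfold N2
  fun_prop

theorem cr_cont (p : ℂ × ℂ) : Continuous (cr p) := by
  unfold cr
  fun_prop

theorem cho_cont {p y : ℂ × ℂ} (hp : p ≠ 0) (hy : y ≠ 0) : ContinuousAt (cho p) y := by
  unfold cho
  refine ContinuousAt.div ?_ ?_ ?_
  · exact (cr_cont p).norm.continuousAt
  · exact (Real.continuous_sqrt.comp (continuous_const.mul N2_cont)).continuousAt
  · exact (Real.sqrt_pos.2 (mul_pos (N2_pos hp) (N2_pos hy))).ne'

theorem hF_diff {d : ℕ} (x : CV d) : Differentiable ℂ (hF x) := by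
  unfold hF
  fun_prop

theorem it_diff {d : ℕ} (x : CV d) (n : ℕ) : Differentiable ℂ ((hF x)^[n]) := by
  induction n with
  | zero => exact differentiable_id
  | succ n ih =>
    rw [Function.iterate_succ']
    exact (hF_diff x).comp ih

theorem line_diff (q q' : ℂ × ℂ) : Differentiable ℂ (fun t : ℂ => q + t • q') := by
  fun_prop

/-- surjectivity of the iterates on directions -/
theorem surj {d : ℕ} {x : CV d} (h0 : ∀ (n : ℕ) (p : ℂ × ℂ), p ≠ 0 → (hF x)^[n] p ≠ 0)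
    (hcr : ∀ (n : ℕ) (p q : ℂ × ℂ), cr p q = 0 → cr ((hF x)^[n] p) ((hF x)^[n] q) = 0)
    (h3 : ∀ a : ℂ × ℂ, a ≠ 0 → ∃ b : ℂ × ℂ, b ≠ 0 ∧ cr ((hF x)^[3] b) a = 0) (n : ℕ) :
    ∀ a : ℂ × ℂ, a ≠ 0 → ∃ b : ℂ × ℂ, b ≠ 0 ∧ cr ((hF x)^[n] b) a = 0 := by
  induction n with
  | zero =>
    intro a ha
    refine ⟨a, ha, ?_⟩
    show cr a a = 0
    unfold cr
    ring
  | succ n ih =>
    intro a ha
    obtain ⟨b, hb, hba⟩ := h3 a ha
    have h1 : (hF x)^[3] b = hF x ((hF x)^[2] b) := Function.iterate_succ_apply' _ _ _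
    rw [h1] at hba
    obtain ⟨b', hb', hb'2⟩ := ih _ (h0 2 b hb)
    refine ⟨b', hb', ?_⟩
    have h2 := hcr 1 _ _ hb'2
    rw [Function.iterate_one] at h2
    rw [Function.iterate_succ_apply']
    refine cr_trans ?_ h2 hba
    have := h0 1 _ (h0 2 b hb)
    rwa [Function.iterate_one] at this

/-- the iterates are open maps near every point -/
theorem opn {d : ℕ} {x : CV d} (h0 : ∀ (n : ℕ) (p : ℂ × ℂ), p ≠ 0 → (hF x)^[n] p ≠ 0)
    (hcr : ∀ (n : ℕ) (p q : ℂ × ℂ), cr p q = 0 → cr ((hF x)^[n] p) ((hF x)^[n] q) = 0)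
    (h3 : ∀ a : ℂ × ℂ, a ≠ 0 → ∃ b : ℂ × ℂ, b ≠ 0 ∧ cr ((hF x)^[3] b) a = 0) (n : ℕ)
    {p₀ q₀ v' : ℂ × ℂ} (hp₀ : p₀ ≠ 0) (hq₀ : q₀ ≠ 0) (hv' : cr ((hF x)^[n] q₀) v' ≠ 0) {δ : ℝ}
    (hδ : cho p₀ q₀ < δ) : ∃ δ₁ > (0 : ℝ), ∀ w ∈ ball (0 : ℂ) δ₁, ∃ q : ℂ × ℂ, q ≠ 0 ∧
      cho p₀ q < δ ∧ cr ((hF x)^[n] q) ((hF x)^[n] q₀ + w • v') = 0 := by
  obtain ⟨q', hq'⟩ := ex_indep hq₀
  set v := (hF x)^[n] q₀ with hv
  have hv0 : v ≠ 0 := h0 n q₀ hq₀
  let h : ℂ → ℂ × ℂ := fun t => (hF x)^[n] (q₀ + t • q')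
  have hh : Differentiable ℂ h := (it_diff x n).comp (line_diff q₀ q')
  have hh0 : h 0 = v := by
    show (hF x)^[n] (q₀ + (0 : ℂ) • q') = v
    rw [zero_smul, add_zero]
  let f1 : ℂ → ℂ := fun t => cr v (h t)
  let f2 : ℂ → ℂ := fun t => cr (h t) v'
  have hf1 : Differentiable ℂ f1 := by
    show Differentiable ℂ fun t => v.1 * (h t).2 - v.2 * (h t).1
    have a1 := hh.fst
    have a2 := hh.snd
    fun_prop
  have hf2 : Differentiable ℂ f2 := by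
    show Differentiable ℂ fun t => (h t).1 * v'.2 - (h t).2 * v'.1
    have a1 := hh.fst
    have a2 := hh.snd
    fun_prop
  have hf20 : f2 0 ≠ 0 := by
    show cr (h 0) v' ≠ 0
    rw [hh0]
    exact hv'
  have hf10 : f1 0 = 0 := by
    show cr v (h 0) = 0
    rw [hh0]
    unfold cr
    ring
  have hev2 : ∀ᶠ t in 𝓝 (0 : ℂ), f2 t ≠ 0 := hf2.continuous.continuousAt.eventually_ne hf20
  have hevc : ∀ᶠ t in 𝓝 (0 : ℂ), cho p₀ (q₀ + t • q') < δ := by
    have hc : ContinuousAt (fun t : ℂ => cho p₀ (q₀ + t • q')) 0 := by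
      have h1 : ContinuousAt (cho p₀) ((fun t : ℂ => q₀ + t • q') 0) := by
        refine cho_cont hp₀ ?_
        show q₀ + (0 : ℂ) • q' ≠ 0
        exact line_ne hq' 0
      exact ContinuousAt.comp (g := cho p₀) (f := fun t : ℂ => q₀ + t • q') h1
        (line_diff q₀ q').continuous.continuousAt
    refine hc.eventually_lt continuousAt_const ?_
    rw [zero_smul, add_zero]
    exact hδ
  let g : ℂ → ℂ := fun t => f1 t / f2 t
  have hg : AnalyticAt ℂ g 0 := (hf1.analyticAt 0).div (hf2.analyticAt 0) hf20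
  have hg0 : g 0 = 0 := by
    show f1 0 / f2 0 = 0
    rw [hf10, zero_div]
  rcases hg.eventually_constant_or_nhds_le_map_nhds with hc | hc
  · exfalso
    have he : f1 =ᶠ[𝓝 0] 0 := by
      filter_upwards [hc, hev2] with t ht ht2
      rw [hg0] at ht
      have : f1 t / f2 t = 0 := ht
      rcases div_eq_zero_iff.1 this with h' | h'
      · exact h'
      · exact absurd h' ht2
    have hall : ∀ t, f1 t = 0 := by
      intro t
      have := (hf1.differentiableOn.analyticOnNhd isOpen_univ).eqOn_zero_of_preconnected_of_eventuallyEq_zero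
        isPreconnected_univ (mem_univ 0) he (mem_univ t)
      exact this
    have key : ∀ p : ℂ × ℂ, p ≠ 0 → cr p q' ≠ 0 → cr v ((hF x)^[n] p) = 0 := by
      intro p hp hpq
      have h1 : cr p (q₀ + (-(cr p q₀) / cr p q') • q') = 0 := by
        rw [cr_line]
        field_simp
        ring
      have h2 := hcr n _ _ h1
      refine cr_trans (h0 n _ (line_ne hq' (-(cr p q₀) / cr p q'))) ?_ (cr_symm h2)
      exact hall _
    have hv'0 : v' ≠ 0 := by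
      rintro rfl
      apply hv'
      unfold cr
      simp
    have hvv : v + (1 : ℂ) • v' ≠ 0 := line_ne hv' 1
    obtain ⟨pa, hpa, hpa2⟩ := surj h0 hcr h3 n v' hv'0
    obtain ⟨pb, hpb, hpb2⟩ := surj h0 hcr h3 n (v + (1 : ℂ) • v') hvv
    have ha : cr pa q' = 0 := by
      by_contra hne
      exact hv' (cr_trans (h0 n pa hpa) (key pa hpa hne) hpa2)
    have hb : cr pb q' = 0 := by
      by_contra hne
      have := cr_trans (h0 n pb hpb) (key pb hpb hne) hpb2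
      rw [cr_line, one_mul] at this
      have hvv0 : cr v v = 0 := by unfold cr; ring
      rw [hvv0, zero_add] at this
      exact hv' this
    have hq'0 : q' ≠ 0 := by
      rintro rfl
      apply hq'
      unfold cr
      simp
    have hab : cr pa pb = 0 := cr_trans hq'0 ha (cr_symm hb)
    have hab2 := hcr n _ _ hab
    have h1 : cr v' ((hF x)^[n] pb) = 0 := cr_trans (h0 n pa hpa) (cr_symm hpa2) hab2
    have h2 := cr_trans (h0 n pb hpb) h1 hpb2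
    rw [cr_line, one_mul] at h2
    have hvv0 : cr v' v' = 0 := by unfold cr; ring
    rw [hvv0, add_zero] at h2
    exact hv' (cr_symm h2)
  · rw [hg0] at hc
    have hset : {w : ℂ | ∃ t : ℂ, (f2 t ≠ 0 ∧ cho p₀ (q₀ + t • q') < δ) ∧ g t = w} ∈ 𝓝 (0 : ℂ) := by
      apply hc
      rw [mem_map]
      filter_upwards [hev2, hevc] with t h1 h2
      exact ⟨t, ⟨h1, h2⟩, rfl⟩
    obtain ⟨δ₁, hδ₁, hsub⟩ := Metric.mem_nhds_iff.1 hset
    refine ⟨δ₁, hδ₁, fun w hw => ?_⟩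
    obtain ⟨t, ⟨ht1, ht2⟩, rfl⟩ := hsub hw
    refine ⟨q₀ + t • q', line_ne hq' t, ht2, ?_⟩
    show cr (h t) (v + g t • v') = 0
    rw [cr_line]
    show cr (h t) v + cr v (h t) / cr (h t) v' * cr (h t) v' = 0
    have ht1' : cr (h t) v' ≠ 0 := ht1
    rw [div_mul_cancel₀ _ ht1', cr_swap v (h t)]
    ring

/-- one disc -/
theorem one_disc (hCHO : S_CHO) (hMM : S_MM) (hTRIP : S_TRIP) {d : ℕ} {x : CV d} (hd : 2 ≤ d)
    (hnd : ND x) (hce : CE x) (hdcr : DCR x) {p₀ : ℂ × ℂ} (hp₀ : p₀ ≠ 0) {δ : ℝ} (hδ : 0 < δ) :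
    ∃ N : ℕ, ∀ n ≥ N, ∀ a : ℂ × ℂ, a ≠ 0 →
      ∃ q : ℂ × ℂ, q ≠ 0 ∧ cho p₀ q < δ ∧ cr ((hF x)^[n] q) a = 0 := by
  obtain ⟨_, _, _, _, hC5⟩ := hCHO
  obtain ⟨hspd, _, hcr, h0, _⟩ := hC5 d x hd hnd
  obtain ⟨σ, hσ, hb⟩ := hTRIP d x hd hnd hce
  obtain ⟨K, hK, hMM⟩ := hMM σ hσ
  have h3 : ∀ a : ℂ × ℂ, a ≠ 0 → ∃ b : ℂ × ℂ, b ≠ 0 ∧ cr ((hF x)^[3] b) a = 0 := by
    intro a ha
    obtain ⟨b, hb1, _⟩ := hb a ha
    exact ⟨b 0, hb1 0⟩
  obtain ⟨q₀, hq₀, hpq, m, hm⟩ := hdcr δ hδ p₀ hp₀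
  set c := (hF x)^[m] q₀ with hc
  have hc0 : c ≠ 0 := h0 m q₀ hq₀
  obtain ⟨C, hC, μ, hμ, hgr⟩ := hce c hc0 hm
  set v := (hF x)^[m + 1] q₀ with hv
  have hvc : v = hF x c := Function.iterate_succ_apply' _ _ _
  have hv0 : v ≠ 0 := h0 (m + 1) q₀ hq₀
  obtain ⟨v', hv'⟩ := ex_indep hv0
  obtain ⟨δ₁, hδ₁, hop⟩ := opn h0 hcr h3 (m + 1) hp₀ hq₀ hv' hpq
  -- the speed of the line
  have hs : 0 < spd (fun w : ℂ => v + w • v') 0 := by
    unfold spd
    have hder : deriv (fun w : ℂ => v + w • v') 0 = v' := by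
      have : HasDerivAt (fun w : ℂ => v + w • v') ((1 : ℂ) • v') 0 :=
        ((hasDerivAt_id (0 : ℂ)).smul_const v').const_add v
      rw [this.deriv, one_smul]
    rw [hder]
    show 0 < ‖cr v' (v + (0 : ℂ) • v')‖ / N2 (v + (0 : ℂ) • v')
    rw [zero_smul, add_zero]
    refine div_pos (norm_pos_iff.2 ?_) (N2_pos hv0)
    intro h
    exact hv' (cr_symm h)
  obtain ⟨j₀, hj₀⟩ : ∃ j₀ : ℕ, ∀ j ≥ j₀, K / δ₁ < C * μ ^ j * spd (fun w : ℂ => v + w • v') 0 := by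
    have ht : Tendsto (fun j : ℕ => C * μ ^ j * spd (fun w : ℂ => v + w • v') 0) atTop atTop :=
      ((tendsto_pow_atTop_atTop_of_one_lt hμ).const_mul_atTop hC).atTop_mul_const hs
    exact eventually_atTop.1 (ht.eventually_gt_atTop (K / δ₁))
  refine ⟨j₀ + 3 + (m + 1), fun n hn a ha => ?_⟩
  obtain ⟨j, rfl⟩ : ∃ j, n = 3 + j + (m + 1) := ⟨n - (3 + (m + 1)), by omega⟩
  have hj : j₀ ≤ j := by omega
  obtain ⟨b, hb1, hb2⟩ := hb a ha
  obtain ⟨w, hw, i, hwi⟩ : ∃ w ∈ ball (0 : ℂ) δ₁, ∃ i, cr ((hF x)^[j] (v + w • v')) (b i) = 0 := by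
    by_contra hno
    push Not at hno
    have h1 := hMM (fun w => (hF x)^[j] (v + w • v')) 0 δ₁ (b 0) (b 1) (b 2) hδ₁
      (((it_diff x j).comp (line_diff v v')).differentiableOn)
      (fun z _ => h0 j _ (line_ne hv' z)) (hb1 0).1 (hb1 1).1 (hb1 2).1
      (hb2 0 1 (by decide)) (hb2 1 2 (by decide)) (hb2 0 2 (by decide))
      (fun z hz => ⟨hno z hz 0, hno z hz 1, hno z hz 2⟩)
    have h2 := hspd (fun w : ℂ => v + w • v') 0 j (line_diff v v').differentiableAt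
      (line_ne hv' 0)
    rw [h2] at h1
    have h3' : sdn x j ((fun w : ℂ => v + w • v') 0) = sdn x j (hF x c) := by
      show sdn x j (v + (0 : ℂ) • v') = _
      rw [zero_smul, add_zero, hvc]
    rw [h3'] at h1
    have h4 := mul_le_mul_of_nonneg_right (hgr j) hs.le
    exact absurd (lt_of_lt_of_le (hj₀ j hj) (h4.trans h1)) (lt_irrefl _)
  obtain ⟨q, hq, hqδ, hqw⟩ := hop w hw
  refine ⟨q, hq, hqδ, ?_⟩
  have hl0 : v + w • v' ≠ 0 := line_ne hv' w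
  have e1 : cr ((hF x)^[3 + j] (v + w • v')) a = 0 := by
    rw [Function.iterate_add_apply]
    exact cr_trans (h0 3 _ (hb1 i).1) (hcr 3 _ _ hwi) (hb1 i).2
  rw [Function.iterate_add_apply]
  exact cr_trans (h0 (3 + j) _ hl0) (hcr (3 + j) _ _ hqw) e1

/-- **Topological exactness.** -/
theorem t_LEO (hCHO : S_CHO) (hMM : S_MM) (hTRIP : S_TRIP) : S_LEO := by
  intro d x hd hnd hce hdcr δ hδ
  have htri := hCHO.1
  have hsym := hCHO.2.1
  have hhom := hCHO.2.2.2.1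
  have hδ2 : 0 < δ / 2 := by linarith
  -- choose the time for each point
  have hone : ∀ p : ℂ × ℂ, ∃ N : ℕ, p ≠ 0 → ∀ n ≥ N, ∀ a : ℂ × ℂ, a ≠ 0 →
      ∃ q : ℂ × ℂ, q ≠ 0 ∧ cho p q < δ / 2 ∧ cr ((hF x)^[n] q) a = 0 := by
    intro p
    by_cases hp : p = 0
    · exact ⟨0, fun h => absurd hp h⟩
    · obtain ⟨N, hN⟩ := one_disc hCHO hMM hTRIP hd hnd hce hdcr hp hδ2
      exact ⟨N, fun _ => hN⟩
  choose N hN using hone
  have hcpt : IsCompact (sphere (0 : ℂ × ℂ) 1) := isCompact_sphere _ _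
  have hS0 : ∀ p ∈ sphere (0 : ℂ × ℂ) 1, p ≠ 0 := by
    rintro p hp rfl
    rw [mem_sphere_zero_iff_norm, norm_zero] at hp
    exact zero_ne_one hp
  obtain ⟨t, ht, hcov⟩ := hcpt.elim_nhds_subcover (fun p => {y | cho p y < δ / 2}) (by
    intro p hp
    have hp0 := hS0 p hp
    have h1 := cho_cont hp0 hp0
    have h2 : cho p p = 0 := by
      unfold cho cr
      rw [mul_comm p.2 p.1, sub_self, norm_zero, zero_div]
    exact h1.eventually_lt continuousAt_const (by rw [h2]; exact hδ2))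
  refine ⟨t.sup N, fun n hn p a hp ha => ?_⟩
  have hpn : 0 < ‖p‖ := norm_pos_iff.2 hp
  set u : ℂ × ℂ := ((‖p‖⁻¹ : ℝ) : ℂ) • p with hu
  have hinv : ((‖p‖⁻¹ : ℝ) : ℂ) ≠ 0 := by
    rw [Complex.ofReal_ne_zero]
    exact inv_ne_zero hpn.ne'
  have hun : u ∈ sphere (0 : ℂ × ℂ) 1 := by
    rw [mem_sphere_zero_iff_norm, hu, norm_smul, Complex.norm_real, norm_inv, norm_norm,
      inv_mul_cancel₀ hpn.ne']
  have h1 := hcov hun
  rw [mem_iUnion₂] at h1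
  obtain ⟨p₁, hp₁, hu₁⟩ := h1
  have hp₁0 : p₁ ≠ 0 := hS0 p₁ (ht p₁ hp₁)
  have hNn : N p₁ ≤ n := (Finset.le_sup hp₁).trans hn
  obtain ⟨q, hq, hq1, hq2⟩ := hN p₁ hp₁0 n hNn a ha
  refine ⟨q, hq, ?_, hq2⟩
  have h2 : cho p p₁ < δ / 2 := by
    have h3 : cho p₁ u < δ / 2 := hu₁
    rw [(hsym p₁ u).1] at h3
    have h4 := hhom p p₁ (((‖p‖⁻¹ : ℝ) : ℂ)) 1 hinv one_ne_zero
    rw [one_smul] at h4
    rw [← h4]
    exact h3
  have h5 := htri p p₁ q hp hp₁0 hq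
  linarith

end Pool.Agent.H746.HY211
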